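import Pool.Agent.W830.RD.Stm

/-!
# Project RD: SADD and DUAL
-/

set_option autoImplicit false

namespace Pool.Agent.W878.RD.Sadd

open Pool.Agent.W830.RD
open scoped Classical

theorem sadd : S_SADD := by
  intro α _ N D U C C' hS hC hC' hno
  obtain ⟨L, X, Y, h1, h2, h3, h4, h5, h6, h7⟩ := hS
  refine ⟨(C, C') ::ₘ L, X, Y, ?_, ?_, ?_, ?_, h5, ?_, ?_⟩
  · rw [Multiset.card_cons]; omega
  · intro p hp
    rcases Multiset.mem_cons.1 hp with rfl | hp
    · exact ⟨Finset.subset_union_right, Finset.subset_union_right, hC, hC'⟩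
    · obtain ⟨a, b, c, d⟩ := h2 p hp
      exact ⟨a.trans Finset.subset_union_left, b.trans Finset.subset_union_left, c, d⟩
  · intro x hx
    rcases Finset.mem_union.1 hx with hx | hx
    · obtain ⟨p, hp, hxp⟩ := h3 x hx
      exact ⟨p, Multiset.mem_cons_of_mem hp, hxp⟩
    · exact ⟨(C, C'), Multiset.mem_cons_self _ _, hx⟩
  · intro x hx
    rcases Finset.mem_union.1 hx with hx | hx
    · obtain ⟨p, hp, hxp⟩ := h4 x hx
      exact ⟨p, Multiset.mem_cons_of_mem hp, hxp⟩
    · exact ⟨(C, C'), Multiset.mem_cons_self _ _, hx⟩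
  · intro p hp d hd u hu hdu
    rcases Multiset.mem_cons.1 hp with rfl | hp
    · exact absurd hdu (hno d hd u hu)
    · exact h6 p hp d hd u hu hdu
  · have hnm : ¬ Mixed (C, C') := by
      rintro ⟨d, hd, u, hu, hdu⟩
      exact hno d hd u hu hdu
    rw [Multiset.countP_cons_of_neg _ hnm]
    exact h7.trans (Multiset.countP_le_of_le _ (Multiset.le_cons_self _ _))

theorem countP_map_aux {A B : Type} (f : A → B) (p : B → Prop) (q : A → Prop)
    (h : ∀ a, p (f a) ↔ q a) (s : Multiset A) : (s.map f).countP p = s.countP q := by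
  rw [Multiset.countP_map, Multiset.countP_eq_card_filter]
  congr 1
  exact Multiset.filter_congr fun a _ => h a

theorem dual : S_DUAL := by
  intro α _ N D U hS
  obtain ⟨L, X, Y, h1, h2, h3, h4, h5, h6, h7⟩ := hS
  let f : Finset αᵒᵈ × Finset αᵒᵈ → Finset α × Finset α := fun q => (q.2, q.1)
  have e1 : (L.map f).countP Mixed = L.countP (@Mixed αᵒᵈ _) := by
    refine countP_map_aux f _ _ (fun q => ?_) L
    constructor
    · rintro ⟨d, hd, u, hu, hdu⟩
      exact ⟨u, hu, d, hd, hdu⟩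
    · rintro ⟨d, hd, u, hu, hdu⟩
      exact ⟨u, hu, d, hd, hdu⟩
  have e2 : (L.map f).countP Pool.Agent.W830.RD.Small
      = L.countP (@Pool.Agent.W830.RD.Small αᵒᵈ) := by
    refine countP_map_aux f _ _ (fun q => ?_) L
    show q.2.card + q.1.card ≤ 1 ↔ q.1.card + q.2.card ≤ 1
    rw [add_comm]
  refine ⟨L.map f, Y, X, ?_, ?_, ?_, ?_, ?_, ?_, ?_⟩
  · rw [Multiset.card_map]; exact h1
  · intro p hp
    obtain ⟨q, hq, rfl⟩ := Multiset.mem_map.1 hp
    obtain ⟨a, b, c, d⟩ := h2 q hq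
    exact ⟨b, a, fun x hx y hy => (d x hx y hy).symm, fun x hx y hy => (c x hx y hy).symm⟩
  · intro x hx
    obtain ⟨q, hq, hxq⟩ := h4 x hx
    exact ⟨f q, Multiset.mem_map_of_mem f hq, hxq⟩
  · intro x hx
    obtain ⟨q, hq, hxq⟩ := h3 x hx
    exact ⟨f q, Multiset.mem_map_of_mem f hq, hxq⟩
  · intro x hx y hy
    exact h5 y hy x hx
  · intro p hp d hd u hu hdu
    obtain ⟨q, hq, rfl⟩ := Multiset.mem_map.1 hp
    exact (h6 q hq u hu d hd hdu).symm
  · rw [e1, e2]
    exact h7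

end Pool.Agent.W878.RD.Sadd
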